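import Mathlib
import Pool.Agent.Q293.FH.Main

open MeasureTheory Filter Topology

namespace Pool.Agent.Results.MP_43990b_pr.OnePointFisherHartwig

/-- The standard complex Gaussian law: density `exp (-|z|^2) / π` on the plane. -/
noncomputable def stdGaussian : Measure ℂ :=
  volume.withDensity (fun z => ENNReal.ofReal (Real.pi⁻¹ * Real.exp (-‖z‖ ^ 2)))

/-- Joint law of the `n * n` independent standard complex Gaussian entries of a Ginibre matrix. -/
noncomputable def ginibre (n : ℕ) : Measure (Fin n × Fin n → ℂ) :=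
  Measure.pi (fun _ => stdGaussian)

/-- Joint law of two independent Ginibre matrices (the pair of their entry arrays). -/
noncomputable def pairLaw (n : ℕ) : Measure ((Fin n × Fin n → ℂ) × (Fin n × Fin n → ℂ)) :=
  (ginibre n).prod (ginibre n)

/-- The matrix with a given array of entries. -/
def mat {n : ℕ} (v : Fin n × Fin n → ℂ) : Matrix (Fin n) (Fin n) ℂ :=
  Matrix.of fun i j => v (i, j)

/-- The characteristic polynomial `P_n(z) = det (z I - A B⁻¹)` of the spherical ensemble. -/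
noncomputable def charP (n : ℕ) (z : ℂ) (p : (Fin n × Fin n → ℂ) × (Fin n × Fin n → ℂ)) : ℂ :=
  (z • (1 : Matrix (Fin n) (Fin n) ℂ) - mat p.1 * (mat p.2)⁻¹).det

/-- `|P_n(z)|^γ = exp (γ log |P_n(z)|)`. -/
noncomputable def absPow (n : ℕ) (z γ : ℂ) (p : (Fin n × Fin n → ℂ) × (Fin n × Fin n → ℂ)) : ℂ :=
  Complex.exp (γ * (Real.log ‖charP n z p‖ : ℝ))

/-- The Barnes function, by its defining properties: entire, `G 1 = 1`, `G (s+1) = Γ(s) G(s)` off
the poles of `Γ`, real and positive on the positive axis, and with nonnegative third derivative of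
`log G` there. -/
structure IsBarnes (G : ℂ → ℂ) : Prop where
  entire : Differentiable ℂ G
  one : G 1 = 1
  func : ∀ s : ℂ, (∀ m : ℕ, s ≠ -m) → G (s + 1) = Complex.Gamma s * G s
  pos : ∀ x : ℝ, 0 < x → ∃ y : ℝ, 0 < y ∧ G x = y
  third : ∀ x : ℝ, 0 < x → 0 ≤ iteratedDeriv 3 (fun u : ℝ => Real.log (G u).re) x

/-- The predicted asymptotics `M_n(z,γ)`; complex powers of positive reals are principal. -/
noncomputable def asym (G : ℂ → ℂ) (n : ℕ) (z γ : ℂ) : ℂ :=
  (n : ℂ) ^ (γ ^ 2 / 4) * ((1 + ‖z‖ ^ 2 : ℝ) : ℂ) ^ (γ * n / 2 - γ ^ 2 / 4)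
    / (G (1 - γ / 2) * G (1 + γ / 2))

/-- Question 1: the one-point Fisher-Hartwig asymptotics hold for the spherical ensemble,
uniformly on compact sets of `z` in the plane and `γ` in the strip `|Re γ| < 2`. -/
theorem result (G : ℂ → ℂ) (hG : IsBarnes G) :
    (∀ (n : ℕ) (z : ℂ), ∀ᵐ p ∂(pairLaw n), (mat p.2).det ≠ 0 ∧ charP n z p ≠ 0) ∧
    (∀ (n : ℕ) (z γ : ℂ), |γ.re| < 2 → Integrable (absPow n z γ) (pairLaw n)) ∧
    ∀ K L : Set ℂ, IsCompact K → IsCompact L → L ⊆ {γ : ℂ | |γ.re| < 2} →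
      TendstoUniformlyOn
        (fun (n : ℕ) (q : ℂ × ℂ) => (∫ p, absPow n q.1 q.2 p ∂(pairLaw n)) / asym G n q.1 q.2)
        (fun _ => 1) atTop (K ×ˢ L) := by
  have hG' : Pool.Agent.Q293.FH.IsBarnesG G := ⟨hG.entire, hG.one, hG.func, hG.pos, hG.third⟩
  refine ⟨fun n z => ?_, fun n z γ hγ => ?_, fun K L hK hL hLS => ?_⟩
  · filter_upwards [Pool.Agent.Q293.FH.ae_det2 (n := n), Pool.Agent.Q293.FH.ae_PP (n := n) z]
      with p h1 h2
    exact ⟨h1, h2⟩
  · exact (Pool.Agent.Q293.FH.integral_PP (n := n) z γ hγ).1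
  · exact Pool.Agent.Q293.FH.main_unif G hG' K L hK hL hLS

end Pool.Agent.Results.MP_43990b_pr.OnePointFisherHartwig
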